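import Pool.Agent.Helper19.EQ.Ps
import Pool.Agent.Helper63.EQ.Z2b
import Pool.Agent.Helper47.EQ.Z4
import Pool.Agent.Helper95.EQ.Al

/-! # Project QD, block D: the difference average of the bump sum -/

set_option autoImplicit false

namespace Pool.Agent.Helper95.QD

open MeasureTheory Set Filter Topology
open Pool.Agent.Helper95.EW (Ac Dl Nr)
open Pool.Agent.Helper71.MR (gt gt_nonneg)
open Pool.Agent.Helper63.EW (ha ma AA S ma_meas)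
open Pool.Agent.Helper63.EQ (nu Zn Adm ma_ff ma_shift Zn_growth Zn_up)
open Pool.Agent.Helper99.MS (ell ff mr GB gg KL cv be g1 EE al ZL CS CE CI cC2 ell_nonneg)
open Pool.Agent.Helper19.QD
open Pool.Agent.Helper95.EQ

variable {w : ℝ → ℝ} {Cw B : ℝ}

theorem Dr_Dv (w : ℝ → ℝ) (δ : ℝ) (f : ℝ → ℝ) (V : ℝ) : Dr w δ f V = Dv (ps w δ) f V := rfl

theorem ps_supp' (h : Adm w Cw) {δ : ℝ} (hδ0 : 0 < δ) (hδ : δ ≤ 1 / 4) (y : ℝ) (hy : 1 < |y|) : ps w δ y = 0 := by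
  apply ps_supp h hδ0.le
  rcases lt_or_ge y 0 with h0 | h0
  · rw [abs_of_neg h0] at hy
    left
    linarith
  · rw [abs_of_nonneg h0] at hy
    right
    linarith

/-- the near-level integral is the difference average of the normalised sum function -/
theorem Zn_Dr (h : Adm w Cw) (hB : GB (ff mr) B) {δ : ℝ} (hδ0 : 0 < δ) (hδ : δ ≤ 1 / 4) (V : ℝ) :
    Zn mr w δ V = Dr w δ (ff mr) V := by
  have e1 : ff mr = ma mr := by
    funext x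
    exact (ma_ff x).symm
  rw [e1, Dr_eq h hδ0.le (by linarith) (ma_meas mr) (M := 2 * B * ell V)]
  · rfl
  · intro y hy
    have h1 : |y - V| ≤ 1 := by
      rw [abs_le]
      constructor <;> linarith [hy.1, hy.2]
    have := ma_shift hB (x := V) h1
    rwa [show V + (y - V) = y by ring] at this

/-- **block D, Fubini** -/
theorem Dr_g1 (h : Adm w Cw) (hB : GB (ff mr) B) {m : ℝ} (hm : 8 ≤ m) {δ : ℝ} (hδ0 : 0 < δ) (hδ : δ ≤ 1 / 4) (V : ℝ) :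
    Dr w δ (g1 m) V = ∫ t : ℝ, al m t * Zn mr w δ (V - t) := by
  rw [Dr_Dv, Dv_g1 (ps_int h hδ0 hδ).1 (ps_supp' h hδ0 hδ) hB hm]
  congr 1
  funext t
  rw [Zn_Dr h hB hδ0 hδ]
  rfl

/-- **block D, upper bound** -/
theorem Dr_up (h : Adm w Cw) : ∃ C : ℝ, 1 ≤ C ∧ ∀ (B : ℝ), GB (ff mr) B → ∀ m : ℝ, 64 ≤ m → ∀ δ : ℝ, 0 < δ → δ ≤ 1 / 4 →
    ∀ V G : ℝ, 20 + 1 / δ ≤ V → 0 ≤ G → (∀ N : ℕ, (N : ℝ) ≤ Real.exp (V + 3) → |S mr w N| ≤ G * √(N : ℝ)) →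
      |Dr w δ (g1 m) V| ≤ C * (G + 1) * (∫ u : ℝ, gt δ u) + C * B * ell V * Real.exp (-(m / 16)) := by
  obtain ⟨C3, hC3, h3⟩ := Zn_growth h
  obtain ⟨C4, hC4, h4⟩ := Zn_up h
  refine ⟨16 * C3 + 16 * C4 + 1, by linarith, fun B hB m hm δ hδ0 hδ V G hV hG hS => ?_⟩
  have hB0 := hB.nonneg
  have hI : 0 ≤ ∫ u : ℝ, gt δ u := integral_nonneg (gt_nonneg δ)
  obtain ⟨τ₀, hτ, h5⟩ := h4 δ hδ0 (by linarith)
  have hU : ∀ v, V - 1 ≤ v → v ≤ V + 1 → |Dv (ps w δ) (ff mr) v| ≤ C4 * (G + 1) * ∫ u : ℝ, gt δ u := by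
    intro v hv1 hv2
    rw [← Dr_Dv, ← Zn_Dr h hB hδ0 hδ]
    apply h5 v (by linarith) G hG
    intro N hN
    exact hS N (hN.trans (Real.exp_le_exp.mpr (by linarith)))
  have hQ : ∀ v, |Dv (ps w δ) (ff mr) v| ≤ C3 * B * ell v := by
    intro v
    rw [← Dr_Dv, ← Zn_Dr h hB hδ0 hδ]
    exact h3 B hB δ v hδ0 (by linarith)
  have h6 := Dv_up (ps_int h hδ0 hδ).1 (ps_supp' h hδ0 hδ) hB (by linarith : (8:ℝ) ≤ m)
    (by positivity : 0 ≤ C4 * (G + 1) * ∫ u : ℝ, gt δ u) (by positivity : 0 ≤ C3 * B) hU hQ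
  rw [← Dr_Dv] at h6
  refine h6.trans ?_
  have hl := ell_nonneg V
  have h7 : Real.exp (-((m - 4) / 4)) ≤ Real.exp (-(m / 16)) := Real.exp_le_exp.mpr (by linarith)
  have h8 : 0 ≤ Real.exp (-(m / 16)) := (Real.exp_pos _).le
  have e1 : 16 * (C3 * B) * ell V * Real.exp (-((m - 4) / 4)) ≤ 16 * (C3 * B) * ell V * Real.exp (-(m / 16)) :=
    mul_le_mul_of_nonneg_left h7 (by positivity)
  have e2 : 16 * (C3 * B) * ell V * Real.exp (-(m / 16)) = 16 * C3 * (B * ell V * Real.exp (-(m / 16))) := by ring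
  have e3 : 16 * (C4 * (G + 1) * ∫ u : ℝ, gt δ u) = 16 * C4 * ((G + 1) * ∫ u : ℝ, gt δ u) := by ring
  have p1 : 0 ≤ B * ell V * Real.exp (-(m / 16)) := by positivity
  have p2 : 0 ≤ (G + 1) * ∫ u : ℝ, gt δ u := by positivity
  calc 16 * (C4 * (G + 1) * ∫ u : ℝ, gt δ u) + 16 * (C3 * B) * ell V * Real.exp (-((m - 4) / 4))
      ≤ 16 * C4 * ((G + 1) * ∫ u : ℝ, gt δ u) + 16 * C3 * (B * ell V * Real.exp (-(m / 16))) := by linarith
    _ ≤ (16 * C3 + 16 * C4 + 1) * ((G + 1) * ∫ u : ℝ, gt δ u) +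
        (16 * C3 + 16 * C4 + 1) * (B * ell V * Real.exp (-(m / 16))) := by nlinarith
    _ = _ := by ring

end Pool.Agent.Helper95.QD
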